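import Pool.Agent.V5helper33.EHS.Stm

set_option autoImplicit false

/-! # Project EHS, job BLK: one block -/

namespace Pool.Agent.V5helper6.EHS

open Finset
open Pool.Agent.W41 (V V_pos V_le_one)
open Pool.Agent.V5helper42.RS (W model TT mem_TT TT_prime)
open Pool.Agent.V5helper33.EHS

lemma sand (a : ℕ → ℕ) (ha : ∀ p, p.Prime → a p < p) (m h q c : ℕ) (hm : 1 ≤ m) (hc : c < q)
    (had : Adm a q c) :
    FF a m h q c (TQ (m + h) q) ≤ NB a m h q c ∧ NB a m h q c ≤ FF a m h q c (TQ m q) := by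
  classical
  have hm0 : (0 : ℝ) < m := by exact_mod_cast hm
  constructor
  · unfold FF NB
    apply card_le_card
    intro n hn
    rw [mem_filter, mem_Ioc] at hn ⊢
    refine ⟨hn.1, hn.2.1, fun p hp hW h' => ?_⟩
    by_cases hpq : p ∣ q
    · apply had p hp hpq
      have h1 : n ≡ c [MOD q] := by
        show n % q = c % q
        rw [hn.2.1, Nat.mod_eq_of_lt hc]
      exact (h1.of_dvd hpq).symm.trans h'
    · refine hn.2.2 p ?_ ?_
      · unfold TQ
        rw [mem_filter, mem_TT]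
        exact ⟨⟨hp, hW.trans (Real.log_le_log (by exact_mod_cast (by omega : 0 < n))
          (by exact_mod_cast hn.1.2))⟩, hpq⟩
      · have h2 : n % p = a p % p := h'
        rw [h2, Nat.mod_eq_of_lt (ha p hp)]
  · unfold FF NB
    apply card_le_card
    intro n hn
    rw [mem_filter, mem_Ioc] at hn ⊢
    refine ⟨hn.1, hn.2.1, fun p hp h' => ?_⟩
    unfold TQ at hp
    rw [mem_filter, mem_TT] at hp
    refine hn.2.2 p hp.1.1 (hp.1.2.trans (Real.log_le_log hm0 (by exact_mod_cast hn.1.1.le))) ?_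
    show n % p = a p % p
    rw [h', Nat.mod_eq_of_lt (ha p hp.1.1)]

lemma TQ_one (t : ℕ) : TQ t 1 = TT (Real.log t) := by
  unfold TQ
  refine filter_true_of_mem fun p hp => ?_
  have := TT_prime _ p hp
  intro h
  exact this.one_lt.ne' (Nat.dvd_one.1 h)

lemma adm_one (a : ℕ → ℕ) : Adm a 1 0 := by
  intro p hp h
  exact absurd (Nat.dvd_one.1 h) hp.one_lt.ne'

theorem t_BLK : S_BLK := by
  intro a ha m h q c hm hq hc had ε δ hε hε1 hδ hδ1 H
  obtain ⟨s1, s2⟩ := sand a ha m h q c hm hc had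
  obtain ⟨s3, s4⟩ := sand a ha m h 1 0 hm Nat.one_pos (adm_one a)
  obtain ⟨c1, c2, c3, c4⟩ := H m (Or.inl rfl)
  obtain ⟨d1, d2, d3, d4⟩ := H (m + h) (Or.inr rfl)
  rw [TQ_one] at c2 d2 s3 s4
  have hφ : 0 < Nat.totient q := Nat.totient_pos.2 (by omega)
  have hφr : (0 : ℝ) < (Nat.totient q : ℝ) := by exact_mod_cast hφ
  have hqr : (0 : ℝ) < (q : ℝ) := by exact_mod_cast (by omega : 0 < q)
  have hh0 : (0 : ℝ) ≤ (h : ℝ) := Nat.cast_nonneg _
  have v0 : 0 < V (TT (Real.log m)) := V_pos (TT_prime _)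
  have v1 : V (TT (Real.log m)) ≤ 1 := V_le_one (TT_prime _)
  have v0' : 0 < V (TT (Real.log ((m + h : ℕ) : ℝ))) := V_pos (TT_prime _)
  have v1' : V (TT (Real.log ((m + h : ℕ) : ℝ))) ≤ 1 := V_le_one (TT_prime _)
  set v : ℝ := V (TT (Real.log m)) with hv
  set v' : ℝ := V (TT (Real.log ((m + h : ℕ) : ℝ))) with hv'
  unfold Close at c1 c2 d1 d2
  have r1 : (FF a m h q c (TQ (m + h) q) : ℝ) ≤ NB a m h q c := by exact_mod_cast s1
  have r2 : (NB a m h q c : ℝ) ≤ FF a m h q c (TQ m q) := by exact_mod_cast s2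
  have r3 : (FF a m h 1 0 (TT (Real.log ((m + h : ℕ) : ℝ))) : ℝ) ≤ NB a m h 1 0 := by
    exact_mod_cast s3
  have r4 : (NB a m h 1 0 : ℝ) ≤ FF a m h 1 0 (TT (Real.log m)) := by exact_mod_cast s4
  have k1 := (abs_le.1 c1).2
  have k2 := (abs_le.1 c2).2
  have k3 := (abs_le.1 d1).1
  have k4 := (abs_le.1 d2).1
  rw [Nat.cast_one, div_one, ← hv] at k2
  rw [Nat.cast_one, div_one, ← hv'] at k4
  have e1 : (h : ℝ) / q * V (TQ m q) = h * (V (TQ m q) / q) := by ring
  have e2 : (h : ℝ) / q * V (TQ (m + h) q) = h * (V (TQ (m + h) q) / q) := by ring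
  rw [e1] at k1
  rw [e2] at k3
  set φ : ℝ := (Nat.totient q : ℝ) with hφdef
  set G : ℝ := (h : ℝ) / φ with hG
  have hG0 : 0 ≤ G := div_nonneg hh0 hφr.le
  have f1 : (h : ℝ) * (V (TQ m q) / q) ≤ G * v := by
    calc (h : ℝ) * (V (TQ m q) / q) ≤ h * (v / φ) := mul_le_mul_of_nonneg_left c3 hh0
      _ = G * v := by rw [hG]; ring
  have f2 : (1 - δ) * (G * v') ≤ (h : ℝ) * (V (TQ (m + h) q) / q) := by
    calc (1 - δ) * (G * v') = h * ((1 - δ) * (v' / φ)) := by rw [hG]; ring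
      _ ≤ (h : ℝ) * (V (TQ (m + h) q) / q) := mul_le_mul_of_nonneg_left d4 hh0
  have A1 : (NB a m h q c : ℝ) ≤ (1 + ε) * (G * v) := by
    have : (1 + ε) * ((h : ℝ) * (V (TQ m q) / q)) ≤ (1 + ε) * (G * v) :=
      mul_le_mul_of_nonneg_left f1 (by linarith)
    linarith
  have A2 : (1 - ε) * ((1 - δ) * (G * v')) ≤ (NB a m h q c : ℝ) := by
    have : (1 - ε) * ((1 - δ) * (G * v')) ≤ (1 - ε) * ((h : ℝ) * (V (TQ (m + h) q) / q)) :=
      mul_le_mul_of_nonneg_left f2 (by linarith)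
    linarith
  have B1 : (NB a m h 1 0 : ℝ) / φ ≤ (1 + ε) * (G * v) := by
    rw [div_le_iff₀ hφr]
    have e : (1 + ε) * (G * v) * φ = (1 + ε) * (h * v) := by
      rw [hG]; field_simp
    rw [e]
    linarith
  have B2 : (1 - ε) * (G * v') ≤ (NB a m h 1 0 : ℝ) / φ := by
    rw [le_div_iff₀ hφr]
    have e : (1 - ε) * (G * v') * φ = (1 - ε) * (h * v') := by
      rw [hG]; field_simp
    rw [e]
    linarith
  have p1 : 0 ≤ G * (ε * (1 - v) + ε * (1 - v') + δ) := by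
    apply mul_nonneg hG0
    have := mul_nonneg hε (by linarith : 0 ≤ 1 - v)
    have := mul_nonneg hε (by linarith : 0 ≤ 1 - v')
    linarith
  have p2 : 0 ≤ G * (ε * (1 - v) + ε * (1 - v') + δ * (1 - v') + ε * δ * v') := by
    apply mul_nonneg hG0
    have := mul_nonneg hε (by linarith : 0 ≤ 1 - v)
    have := mul_nonneg hε (by linarith : 0 ≤ 1 - v')
    have := mul_nonneg hδ (by linarith : 0 ≤ 1 - v')
    have := mul_nonneg (mul_nonneg hε hδ) v0'.le
    linarith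
  have q1 : G * (v - v' + (2 * ε + δ)) - ((1 + ε) * (G * v) - (1 - ε) * (G * v')) =
      G * (ε * (1 - v) + ε * (1 - v') + δ) := by ring
  have q2 : G * (v - v' + (2 * ε + δ)) - ((1 + ε) * (G * v) - (1 - ε) * ((1 - δ) * (G * v'))) =
      G * (ε * (1 - v) + ε * (1 - v') + δ * (1 - v') + ε * δ * v') := by ring
  rw [abs_le]
  constructor
  · linarith
  · linarith

end Pool.Agent.V5helper6.EHS
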